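import Mathlib

namespace Pool.Agent.H236Z.Hall

open MeasureTheory Complex Set

/-- Change of variables `z = a + c * t` in the plane. -/
theorem lint_affine (a c : ℂ) (hc : c ≠ 0) (f : ℂ → ENNReal) :
    ∫⁻ z, f z = ENNReal.ofReal (normSq c) * ∫⁻ t, f (a + c * t) := by
  have hdet : LinearMap.det (Algebra.lmul ℝ ℂ c) = normSq c := by
    rw [← Algebra.norm_apply, Algebra.norm_complex_apply]
  have hpos : 0 < normSq c := normSq_pos.2 hc
  have hmap := Measure.map_linearMap_addHaar_eq_smul_addHaar (volume : Measure ℂ)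
    (f := Algebra.lmul ℝ ℂ c) (by rw [hdet]; exact hpos.ne')
  let e : ℂ ≃ᵐ ℂ := (Homeomorph.mulLeft₀ c hc).toMeasurableEquiv
  have he : (e : ℂ → ℂ) = (Algebra.lmul ℝ ℂ c) := by
    ext t; rfl
  have h1 : ∫⁻ t, f (a + c * t) = ∫⁻ z, f (a + z) ∂(Measure.map e volume) := by
    rw [lintegral_map_equiv]; rfl
  rw [h1, he, hmap, lintegral_smul_measure, hdet, lintegral_add_left_eq_self (fun z => f z) a,
    abs_of_pos (inv_pos.2 hpos), smul_eq_mul, ← mul_assoc, ← ENNReal.ofReal_mul hpos.le,
    mul_inv_cancel₀ hpos.ne', ENNReal.ofReal_one, one_mul]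

theorem lint_unit (a c : ℂ) (hc : normSq c = 1) (f : ℂ → ENNReal) :
    ∫⁻ z, f z = ∫⁻ t, f (a + c * t) := by
  have hc0 : c ≠ 0 := by
    intro h; rw [h] at hc; simp at hc
  rw [lint_affine a c hc0 f, hc, ENNReal.ofReal_one, one_mul]

/-- The primitive sixth root of unity. -/
noncomputable def om : ℂ := ⟨1 / 2, √3 / 2⟩

theorem sq3 : √3 * √3 = (3 : ℝ) := Real.mul_self_sqrt (by norm_num)

theorem normSq_om : normSq om = 1 := by
  simp only [om, normSq_mk]; nlinarith [sq3]

theorem om_sq : om * om = om - 1 := by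
  apply Complex.ext <;> simp [om] <;> nlinarith [sq3]

theorem norm_om : ‖om‖ = 1 := by
  rw [Complex.norm_def, normSq_om, Real.sqrt_one]

/-- Third vertex of the positively oriented equilateral triangle on `x, y`. -/
noncomputable def ev (x y : ℂ) : ℂ := x + om * (y - x)

theorem ev_ev (y z : ℂ) : ev (ev y z) y = z := by
  unfold ev
  have h := om_sq
  linear_combination (-(z - y)) * h

theorem measurable_ev : Measurable fun p : ℂ × ℂ => ev p.1 p.2 := by
  unfold ev; fun_prop

/-- Cyclic symmetry of the integral over equilateral triangles. -/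
theorem cyc (f : ℂ → ℂ → ℂ → ENNReal)
    (hf : Measurable fun p : ℂ × ℂ × ℂ => f p.1 p.2.1 p.2.2) :
    ∫⁻ x, ∫⁻ y, f x y (ev x y) = ∫⁻ y, ∫⁻ z, f (ev y z) y z := by
  have hm : Measurable (Function.uncurry fun x y => f x y (ev x y)) := by
    have : (Function.uncurry fun x y => f x y (ev x y)) =
        (fun p : ℂ × ℂ × ℂ => f p.1 p.2.1 p.2.2) ∘ (fun q : ℂ × ℂ => (q.1, q.2, ev q.1 q.2)) := by
      ext q; rfl
    rw [this]
    exact hf.comp (measurable_fst.prodMk (measurable_snd.prodMk measurable_ev))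
  rw [lintegral_lintegral_swap hm.aemeasurable]
  congr 1; ext y
  rw [lint_unit (y - om * y) om normSq_om]
  congr 1; ext z
  have h1 : y - om * y + om * z = ev y z := by unfold ev; ring
  rw [h1, ev_ev]

/-- Indicator of a set with values in `ENNReal`. -/
noncomputable def ind (S : Set ℂ) (x : ℂ) : ENNReal := S.indicator 1 x

theorem measurable_ind {S : Set ℂ} (hS : MeasurableSet S) : Measurable (ind S) :=
  measurable_one.indicator hS

theorem ind_of_mem {S : Set ℂ} {x : ℂ} (h : x ∈ S) : ind S x = 1 := by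
  simp [ind, h]

theorem ind_of_notMem {S : Set ℂ} {x : ℂ} (h : x ∉ S) : ind S x = 0 := by
  simp [ind, h]

/-- The density of equilateral triangles in `S`. -/
noncomputable def J (S : Set ℂ) : ENNReal :=
  ∫⁻ x, ∫⁻ y, ind S x * ind S y * ind S (ev x y) * ENNReal.ofReal (normSq (y - x))

theorem ofReal_integral_le {α : Type*} [MeasurableSpace α] (μ : Measure α) (f : α → ℝ)
    (hf : Integrable f μ) : ENNReal.ofReal (∫ x, f x ∂μ) ≤ ∫⁻ x, ENNReal.ofReal (f x) ∂μ := by
  have h1 : ∫ x, f x ∂μ ≤ ∫ x, max (f x) 0 ∂μ :=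
    integral_mono hf hf.pos_part fun x => le_max_left _ _
  refine (ENNReal.ofReal_le_ofReal h1).trans ?_
  rw [ofReal_integral_eq_lintegral_ofReal hf.pos_part
    (Filter.Eventually.of_forall fun x => le_max_right _ _)]
  refine le_of_eq ?_
  congr 1; ext x
  rcases le_total (f x) 0 with h | h
  · rw [max_eq_right h, ENNReal.ofReal_of_nonpos h]; simp
  · rw [max_eq_left h]

end Pool.Agent.H236Z.Hall
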