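import Mathlib

/-! Random triangles in a set: the distribution function of the largest angle. -/

namespace Pool.Agent.H236Z.Hall

open MeasureTheory

/-- The largest of the three (unoriented, Euclidean) angles of the triangle `X Y Z`. -/
noncomputable def largestAngle {n : ℕ} (X Y Z : EuclideanSpace ℝ (Fin n)) : ℝ :=
  max (EuclideanGeometry.angle Y X Z)
    (max (EuclideanGeometry.angle X Y Z) (EuclideanGeometry.angle X Z Y))

/-- The uniform distribution on `S`: Lebesgue measure conditioned on `S`. -/
noncomputable def unif {n : ℕ} (S : Set (EuclideanSpace ℝ (Fin n))) :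
    Measure (EuclideanSpace ℝ (Fin n)) :=
  ProbabilityTheory.cond volume S

/-- `F S φ` is the probability that the largest angle of the triangle formed by three independent
uniform points of `S` is at most `φ`. -/
noncomputable def F {n : ℕ} (S : Set (EuclideanSpace ℝ (Fin n))) (φ : ℝ) : ENNReal :=
  ((unif S).prod ((unif S).prod (unif S))) {t | largestAngle t.1 t.2.1 t.2.2 ≤ φ}

end Pool.Agent.H236Z.Hall
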