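import Pool.Agent.H236Z.Hall.Basic

namespace Pool.Agent.H236Z.Hall

open MeasureTheory Complex Set Real

/-- The point with polar coordinates `r, t`. -/
noncomputable def pol (r t : ℝ) : ℂ := ⟨r * Real.cos t, r * Real.sin t⟩

theorem normSq_pol (r t : ℝ) : normSq (pol r t) = r ^ 2 := by
  simp only [pol, normSq_mk]
  nlinarith [Real.sin_sq_add_cos_sq t]

theorem polar (f : ℂ → ENNReal) (hf : Measurable f) :
    ∫⁻ z, f z = ∫⁻ t in Ioo (-π) π, ∫⁻ r in Ioi (0 : ℝ), ENNReal.ofReal r * f (pol r t) := by
  rw [← Complex.lintegral_comp_polarCoord_symm]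
  have hp : ∀ p : ℝ × ℝ, Complex.polarCoord.symm p = pol p.1 p.2 := by
    intro p
    rw [Complex.polarCoord_symm_apply]
    apply Complex.ext <;> simp [pol, Complex.cos_ofReal_re, Complex.sin_ofReal_re]
  simp_rw [hp, smul_eq_mul]
  have hm : Measurable fun p : ℝ × ℝ => ENNReal.ofReal p.1 * f (pol p.1 p.2) := by
    refine (ENNReal.measurable_ofReal.comp measurable_fst).mul (hf.comp ?_)
    have : (fun p : ℝ × ℝ => pol p.1 p.2) =
        fun p : ℝ × ℝ => ((p.1 * Real.cos p.2 : ℝ) : ℂ) + ((p.1 * Real.sin p.2 : ℝ) : ℂ) * I := by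
      ext p; apply Complex.ext <;> simp [pol, Complex.cos_ofReal_re, Complex.sin_ofReal_re]
    rw [this]; fun_prop
  rw [polarCoord_target, Measure.volume_eq_prod, setLIntegral_prod_symm _ hm.aemeasurable]

theorem radial (k : ℕ) (m : ℝ) (g : ℝ → ENNReal)
    (hg : ∀ r, 0 < r → g r ≤ if r ≤ m then ENNReal.ofReal (r ^ k) else 0) :
    ∫⁻ r in Ioi (0 : ℝ), g r ≤ ENNReal.ofReal ((max m 0) ^ (k + 1) / (k + 1)) := by
  have h1 : ∫⁻ r in Ioi (0 : ℝ), g r ≤
      ∫⁻ r in Ioi (0 : ℝ), (Ioc 0 (max m 0)).indicator (fun r => ENNReal.ofReal (r ^ k)) r := by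
    refine setLIntegral_mono' measurableSet_Ioi fun r hr => (hg r hr).trans ?_
    split_ifs with h
    · rw [indicator_of_mem (show r ∈ Ioc 0 (max m 0) from ⟨hr, h.trans (le_max_left _ _)⟩)]
    · exact zero_le
  refine h1.trans ((setLIntegral_le_lintegral _ _).trans ?_)
  rw [lintegral_indicator measurableSet_Ioc, ← ofReal_integral_eq_lintegral_ofReal,
    ← intervalIntegral.integral_of_le (le_max_right _ _), integral_pow]
  · simp
  · exact (continuous_pow k).integrableOn_Icc.mono_set Ioc_subset_Icc_self
  · filter_upwards [ae_restrict_mem measurableSet_Ioc] with r hr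
    exact pow_nonneg hr.1.le k

theorem meas_ind_mul {S : Set ℂ} (hS : MeasurableSet S) {g : ℂ → ℝ} (hg : Continuous g) :
    Measurable fun x => ind S x * ENNReal.ofReal (g x) := by
  have h1 := measurable_ind hS
  have h2 := hg.measurable
  fun_prop

theorem meas_le {α : Type*} [MeasurableSpace α] {f g : α → ℝ} (hf : Measurable f)
    (hg : Measurable g) : MeasurableSet {a | f a ≤ g a} := measurableSet_le hf hg

theorem meas_normSq {α : Type*} [MeasurableSpace α] {f : α → ℂ} (hf : Measurable f) :
    Measurable fun a => normSq (f a) := continuous_normSq.measurable.comp hf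

theorem disk_moment (R : ℝ) (hR : 0 ≤ R) :
    ∫⁻ x, ind (Metric.closedBall 0 R) x * ENNReal.ofReal (normSq x ^ 2) ≤
      ENNReal.ofReal (π * R ^ 6 / 3) := by
  rw [polar _ (meas_ind_mul (g := fun x => normSq x ^ 2) Metric.isClosed_closedBall.measurableSet
    (by fun_prop))]
  have h : ∀ t : ℝ, ∫⁻ r in Ioi (0 : ℝ), ENNReal.ofReal r *
      (ind (Metric.closedBall 0 R) (pol r t) * ENNReal.ofReal (normSq (pol r t) ^ 2)) ≤
      ENNReal.ofReal (R ^ 6 / 6) := by
    intro t
    refine (radial 5 R _ fun r hr => ?_).trans (le_of_eq ?_)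
    · split_ifs with h
      · rw [normSq_pol]
        calc _ ≤ ENNReal.ofReal r * (1 * ENNReal.ofReal ((r ^ 2) ^ 2)) := by
              gcongr
              unfold ind; exact indicator_le_self' (by simp) _
          _ = _ := by rw [one_mul, ← ENNReal.ofReal_mul hr.le]; congr 1; ring
      · rw [ind_of_notMem]
        · simp
        · rw [Metric.mem_closedBall, dist_zero_right, Complex.norm_def, normSq_pol,
            Real.sqrt_sq hr.le]
          exact h
    · rw [max_eq_left hR]; norm_num
  calc _ ≤ ∫⁻ _ in Ioo (-π) π, ENNReal.ofReal (R ^ 6 / 6) := lintegral_mono fun t => h t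
    _ = _ := by
      rw [setLIntegral_const, Real.volume_Ioo, ← ENNReal.ofReal_mul (by positivity)]
      congr 1; ring

theorem int_cos4 (a b : ℝ) : ∫ t in a..b, 4 * Real.cos t ^ 4 =
    (3 * b / 2 + 3 / 2 * Real.sin b * Real.cos b + Real.sin b * Real.cos b ^ 3) -
    (3 * a / 2 + 3 / 2 * Real.sin a * Real.cos a + Real.sin a * Real.cos a ^ 3) := by
  refine intervalIntegral.integral_eq_sub_of_hasDerivAt
    (f := fun t => 3 * t / 2 + 3 / 2 * Real.sin t * Real.cos t + Real.sin t * Real.cos t ^ 3)
    (fun t _ => ?_) (Continuous.intervalIntegrable (by fun_prop) _ _)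
  have h := ((((hasDerivAt_id t).const_mul 3).div_const 2).add
    (((Real.hasDerivAt_sin t).const_mul (3 / 2)).mul (Real.hasDerivAt_cos t))).add
    ((Real.hasDerivAt_sin t).mul ((Real.hasDerivAt_cos t).pow 3))
  have h2 := Real.sin_sq_add_cos_sq t
  refine (h.congr_deriv ?_)
  simp only [Pi.pow_apply, Nat.cast_ofNat]
  have : (3 : ℕ) - 1 = 2 := rfl
  rw [this]
  linear_combination (-(3 / 2) - 3 * Real.cos t ^ 2) * h2

/-- The lens through the origin. -/
def lens : Set ℂ := {v | normSq (1 - v) ≤ 1 ∧ normSq (1 - om * v) ≤ 1}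

theorem measurableSet_lens : MeasurableSet lens := by
  unfold lens
  exact (meas_le (f := fun v : ℂ => normSq (1 - v)) (meas_normSq (by fun_prop))
    measurable_const).inter
    (meas_le (f := fun v : ℂ => normSq (1 - om * v)) (meas_normSq (by fun_prop)) measurable_const)

theorem lens_moment :
    ∫⁻ v, ind lens v * ENNReal.ofReal (normSq v) ≤ ENNReal.ofReal (π - 9 * √3 / 8) := by
  rw [polar _ (meas_ind_mul (g := fun x => normSq x) measurableSet_lens (by fun_prop))]
  have h : ∀ t : ℝ, ∫⁻ r in Ioi (0 : ℝ), ENNReal.ofReal r *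
      (ind lens (pol r t) * ENNReal.ofReal (normSq (pol r t))) ≤
      ENNReal.ofReal ((max (min (2 * Real.cos t) (2 * Real.cos (t + π / 3))) 0) ^ (3 + 1) /
        ((3 : ℕ) + 1)) := by
    intro t
    refine radial 3 _ _ fun r hr => ?_
    split_ifs with h
    · rw [normSq_pol]
      calc _ ≤ ENNReal.ofReal r * (1 * ENNReal.ofReal (r ^ 2)) := by
            gcongr
            unfold ind; exact indicator_le_self' (by simp) _
        _ = _ := by rw [one_mul, ← ENNReal.ofReal_mul hr.le]; congr 1; ring
    · rw [ind_of_notMem]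
      · simp
      · rintro ⟨h1, h2⟩
        apply h
        have hsc := Real.sin_sq_add_cos_sq t
        have h3 := sq3
        simp only [normSq_apply, pol, om, sub_re, sub_im, one_re, one_im, mul_re, mul_im] at h1 h2
        refine le_min ?_ ?_
        · have : r * r ≤ r * (2 * Real.cos t) := by nlinarith
          exact le_of_mul_le_mul_left this hr
        · rw [Real.cos_add, Real.cos_pi_div_three, Real.sin_pi_div_three]
          have e : (1 - (1 / 2 * (r * Real.cos t) - √3 / 2 * (r * Real.sin t))) *
              (1 - (1 / 2 * (r * Real.cos t) - √3 / 2 * (r * Real.sin t))) +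
              (0 - (1 / 2 * (r * Real.sin t) + √3 / 2 * (r * Real.cos t))) *
              (0 - (1 / 2 * (r * Real.sin t) + √3 / 2 * (r * Real.cos t))) =
              1 - r * (2 * (Real.cos t * (1 / 2) - Real.sin t * (√3 / 2))) + r * r := by
            linear_combination (r * r * (Real.sin t ^ 2 + Real.cos t ^ 2) / 4) * h3 +
              r * r * hsc
          rw [e] at h2
          have : r * r ≤ r * (2 * (Real.cos t * (1 / 2) - Real.sin t * (√3 / 2))) := by linarith
          exact le_of_mul_le_mul_left this hr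
  have hpi := Real.pi_pos
  have h2 : ∀ t ∈ Ioo (-π) π,
      ENNReal.ofReal ((max (min (2 * Real.cos t) (2 * Real.cos (t + π / 3))) 0) ^ (3 + 1) /
        ((3 : ℕ) + 1)) ≤
      (Ioc (-(π / 2)) (-(π / 6))).indicator (fun t => ENNReal.ofReal (4 * Real.cos t ^ 4)) t +
      (Ioc (-(π / 6)) (π / 6)).indicator
        (fun t => ENNReal.ofReal (4 * Real.cos (t + π / 3) ^ 4)) t := by
    intro t ht
    have key : ∀ c : ℝ, min (2 * Real.cos t) (2 * Real.cos (t + π / 3)) ≤ 2 * c → 0 ≤ c →
        ENNReal.ofReal ((max (min (2 * Real.cos t) (2 * Real.cos (t + π / 3))) 0) ^ (3 + 1) /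
        ((3 : ℕ) + 1)) ≤ ENNReal.ofReal (4 * c ^ 4) := by
      intro c hc hc0
      apply ENNReal.ofReal_le_ofReal
      have : (max (min (2 * Real.cos t) (2 * Real.cos (t + π / 3))) 0) ^ (3 + 1) ≤
          (2 * c) ^ (3 + 1) :=
        pow_le_pow_left₀ (le_max_right _ _) (max_le hc (by linarith)) _
      push_cast
      nlinarith
    by_cases h1 : t ≤ -(π / 2)
    · have : Real.cos t ≤ 0 := by
        rw [← Real.cos_neg]
        exact Real.cos_nonpos_of_pi_div_two_le_of_le (by linarith) (by linarith [ht.1])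
      refine (key 0 ((min_le_left _ _).trans (by linarith)) le_rfl).trans ?_
      simp
    · push Not at h1
      by_cases h3 : t ≤ -(π / 6)
      · rw [indicator_of_mem (show t ∈ Ioc (-(π / 2)) (-(π / 6)) from ⟨h1, h3⟩)]
        refine (key (Real.cos t) (min_le_left _ _) ?_).trans le_self_add
        exact Real.cos_nonneg_of_neg_pi_div_two_le_of_le h1.le (by linarith)
      · push Not at h3
        by_cases h4 : t ≤ π / 6
        · rw [indicator_of_mem (show t ∈ Ioc (-(π / 6)) (π / 6) from ⟨h3, h4⟩)]
          refine (key (Real.cos (t + π / 3)) (min_le_right _ _) ?_).trans le_add_self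
          exact Real.cos_nonneg_of_neg_pi_div_two_le_of_le (by linarith) (by linarith)
        · push Not at h4
          have : Real.cos (t + π / 3) ≤ 0 :=
            Real.cos_nonpos_of_pi_div_two_le_of_le (by linarith) (by linarith [ht.2])
          refine (key 0 ((min_le_right _ _).trans (by linarith)) le_rfl).trans ?_
          simp
  have h3 := sq3
  have hs0 : (0 : ℝ) ≤ √3 := Real.sqrt_nonneg 3
  have hs2 : √3 ≤ (1.75 : ℝ) := by nlinarith
  have hpi3 := Real.pi_gt_three
  have i1 : ∫ t in (-(π / 2))..(-(π / 6)), 4 * Real.cos t ^ 4 = π / 2 - 9 * √3 / 16 := by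
    rw [int_cos4]
    simp only [Real.sin_neg, Real.cos_neg, Real.cos_pi_div_two, Real.sin_pi_div_two,
      Real.cos_pi_div_six, Real.sin_pi_div_six]
    linear_combination (-√3 / 16) * h3
  have i2 : ∫ t in (-(π / 6))..(π / 6), 4 * Real.cos (t + π / 3) ^ 4 = π / 2 - 9 * √3 / 16 := by
    rw [intervalIntegral.integral_comp_add_right (fun t => 4 * Real.cos t ^ 4), int_cos4]
    have e1 : π / 6 + π / 3 = π / 2 := by ring
    have e2 : -(π / 6) + π / 3 = π / 6 := by ring
    rw [e1, e2]
    simp only [Real.cos_pi_div_two, Real.sin_pi_div_two,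
      Real.cos_pi_div_six, Real.sin_pi_div_six]
    linear_combination (-√3 / 16) * h3
  calc _ ≤ ∫⁻ t in Ioo (-π) π, ((Ioc (-(π / 2)) (-(π / 6))).indicator
        (fun t => ENNReal.ofReal (4 * Real.cos t ^ 4)) t + (Ioc (-(π / 6)) (π / 6)).indicator
        (fun t => ENNReal.ofReal (4 * Real.cos (t + π / 3) ^ 4)) t) :=
        setLIntegral_mono' measurableSet_Ioo fun t ht => (h t).trans (h2 t ht)
    _ ≤ ∫⁻ t, ((Ioc (-(π / 2)) (-(π / 6))).indicator
        (fun t => ENNReal.ofReal (4 * Real.cos t ^ 4)) t + (Ioc (-(π / 6)) (π / 6)).indicator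
        (fun t => ENNReal.ofReal (4 * Real.cos (t + π / 3) ^ 4)) t) :=
        setLIntegral_le_lintegral _ _
    _ = ENNReal.ofReal (π / 2 - 9 * √3 / 16) + ENNReal.ofReal (π / 2 - 9 * √3 / 16) := by
        rw [lintegral_add_left (Measurable.indicator (by fun_prop) measurableSet_Ioc),
          lintegral_indicator measurableSet_Ioc, lintegral_indicator measurableSet_Ioc,
          ← ofReal_integral_eq_lintegral_ofReal, ← ofReal_integral_eq_lintegral_ofReal,
          ← intervalIntegral.integral_of_le (by linarith),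
          ← intervalIntegral.integral_of_le (by linarith), i1, i2]
        · exact (Continuous.integrableOn_Icc (by fun_prop)).mono_set Ioc_subset_Icc_self
        · exact Filter.Eventually.of_forall fun t => by positivity
        · exact (Continuous.integrableOn_Icc (by fun_prop)).mono_set Ioc_subset_Icc_self
        · exact Filter.Eventually.of_forall fun t => by positivity
    _ = _ := by
        rw [← ENNReal.ofReal_add (by linarith) (by linarith)]
        congr 1; ring

/-- Integrand for triangles whose first vertex is farthest from the origin. -/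
noncomputable def gD (R : ℝ) (x y z : ℂ) : ENNReal :=
  if normSq x ≤ R ^ 2 ∧ normSq y ≤ normSq x ∧ normSq z ≤ normSq x then
    ENNReal.ofReal (normSq (y - x)) else 0

theorem measurable_gD (R : ℝ) {α : Type*} [MeasurableSpace α] {a b c : α → ℂ}
    (ha : Measurable a) (hb : Measurable b) (hc : Measurable c) :
    Measurable fun p => gD R (a p) (b p) (c p) := by
  unfold gD
  refine Measurable.ite ?_ (ENNReal.measurable_ofReal.comp (meas_normSq (by fun_prop)))
    measurable_const
  exact (meas_le (meas_normSq ha) measurable_const).inter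
    ((meas_le (meas_normSq hb) (meas_normSq ha)).inter
      (meas_le (meas_normSq hc) (meas_normSq ha)))

theorem mem_ball_iff {R : ℝ} (hR : 0 ≤ R) (x : ℂ) :
    x ∈ Metric.closedBall (0 : ℂ) R ↔ normSq x ≤ R ^ 2 := by
  rw [Metric.mem_closedBall, dist_zero_right, Complex.normSq_eq_norm_sq]
  exact (pow_le_pow_iff_left₀ (norm_nonneg _) hR two_ne_zero).symm

theorem gD_int (R : ℝ) (hR : 0 ≤ R) :
    ∫⁻ x, ∫⁻ y, gD R x y (ev x y) ≤
      ENNReal.ofReal (π * R ^ 6 / 3) * ENNReal.ofReal (π - 9 * √3 / 8) := by
  have h : ∀ x : ℂ, ∫⁻ y, gD R x y (ev x y) ≤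
      ind (Metric.closedBall 0 R) x * ENNReal.ofReal (normSq x ^ 2) *
        ENNReal.ofReal (π - 9 * √3 / 8) := by
    intro x
    by_cases hx : x = 0
    · subst hx
      have : ∀ y : ℂ, gD R 0 y (ev 0 y) = 0 := by
        intro y
        unfold gD
        split_ifs with h
        · rw [sub_zero, ENNReal.ofReal_eq_zero]; simpa using h.2.1
        · rfl
      simp [this]
    · rw [lint_affine x (-x) (neg_ne_zero.2 hx)]
      have hpos : 0 < normSq x := normSq_pos.2 hx
      have h1 : ∀ v : ℂ, gD R x (x + -x * v) (ev x (x + -x * v)) ≤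
          ind (Metric.closedBall 0 R) x * ENNReal.ofReal (normSq x) *
            (ind lens v * ENNReal.ofReal (normSq v)) := by
        intro v
        unfold gD
        split_ifs with h
        · obtain ⟨h1, h2, h3⟩ := h
          have e1 : x + -x * v = x * (1 - v) := by ring
          have e2 : ev x (x + -x * v) = x * (1 - om * v) := by unfold ev; ring
          have e3 : x + -x * v - x = x * (-v) := by ring
          rw [e2, normSq_mul] at h3
          rw [e1, normSq_mul] at h2
          rw [e3, normSq_mul, normSq_neg, ind_of_mem ((mem_ball_iff hR x).2 h1), ind_of_mem,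
            one_mul, one_mul, ENNReal.ofReal_mul hpos.le]
          exact ⟨by nlinarith, by nlinarith⟩
        · exact zero_le
      calc _ ≤ ENNReal.ofReal (normSq (-x)) * ∫⁻ v, ind (Metric.closedBall 0 R) x *
            ENNReal.ofReal (normSq x) * (ind lens v * ENNReal.ofReal (normSq v)) := by
            gcongr with v; exact h1 v
        _ = ENNReal.ofReal (normSq (-x)) * (ind (Metric.closedBall 0 R) x *
            ENNReal.ofReal (normSq x) * ∫⁻ v, (ind lens v * ENNReal.ofReal (normSq v))) := by
            rw [lintegral_const_mul _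
              (meas_ind_mul (g := fun x => normSq x) measurableSet_lens (by fun_prop))]
        _ ≤ ENNReal.ofReal (normSq (-x)) * (ind (Metric.closedBall 0 R) x *
            ENNReal.ofReal (normSq x) * ENNReal.ofReal (π - 9 * √3 / 8)) := by
            gcongr; exact lens_moment
        _ = _ := by
            rw [normSq_neg, sq, ENNReal.ofReal_mul hpos.le]; ring
  refine (lintegral_mono h).trans ?_
  rw [lintegral_mul_const _ (meas_ind_mul (g := fun x => normSq x ^ 2)
    Metric.isClosed_closedBall.measurableSet (by fun_prop))]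
  gcongr
  exact disk_moment R hR

theorem J_disk (R : ℝ) (hR : 0 ≤ R) :
    J (Metric.closedBall 0 R) ≤ ENNReal.ofReal (π * R ^ 6 * (π - 9 * √3 / 8)) := by
  have hpt : ∀ x y : ℂ, ind (Metric.closedBall 0 R) x * ind (Metric.closedBall 0 R) y *
      ind (Metric.closedBall 0 R) (ev x y) * ENNReal.ofReal (normSq (y - x)) ≤
      gD R x y (ev x y) + gD R y (ev x y) x + gD R (ev x y) x y := by
    intro x y
    by_cases hx : x ∈ Metric.closedBall (0 : ℂ) R
    swap; · simp [ind_of_notMem hx]
    by_cases hy : y ∈ Metric.closedBall (0 : ℂ) R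
    swap; · simp [ind_of_notMem hy]
    by_cases hz : ev x y ∈ Metric.closedBall (0 : ℂ) R
    swap; · simp [ind_of_notMem hz]
    rw [ind_of_mem hx, ind_of_mem hy, ind_of_mem hz, one_mul, one_mul, one_mul]
    rw [mem_ball_iff hR] at hx hy hz
    have e1 : normSq (ev x y - y) = normSq (y - x) := by
      have : ev x y - y = om * om * (y - x) := by rw [om_sq]; unfold ev; ring
      rw [this, normSq_mul, normSq_mul, normSq_om]; ring
    have e2 : normSq (x - ev x y) = normSq (y - x) := by
      have : x - ev x y = -(om * (y - x)) := by unfold ev; ring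
      rw [this, normSq_neg, normSq_mul, normSq_om]; ring
    by_cases h1 : normSq y ≤ normSq x ∧ normSq (ev x y) ≤ normSq x
    · have : gD R x y (ev x y) = ENNReal.ofReal (normSq (y - x)) := by
        unfold gD; rw [if_pos ⟨hx, h1⟩]
      rw [this, add_assoc]; exact le_self_add
    · by_cases h2 : normSq (ev x y) ≤ normSq y ∧ normSq x ≤ normSq y
      · have : gD R y (ev x y) x = ENNReal.ofReal (normSq (y - x)) := by
          unfold gD; rw [if_pos ⟨hy, h2⟩, e1]
        rw [this]; exact le_add_self.trans le_self_add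
      · have h3 : normSq x ≤ normSq (ev x y) ∧ normSq y ≤ normSq (ev x y) := by
          by_contra h3
          rw [not_and_or, not_le, not_le] at h1 h2 h3
          rcases h1 with h1 | h1 <;> rcases h2 with h2 | h2 <;> rcases h3 with h3 | h3 <;> linarith
        have : gD R (ev x y) x y = ENNReal.ofReal (normSq (y - x)) := by
          unfold gD; rw [if_pos ⟨hz, h3⟩, e2]
        rw [this]; exact le_add_self
  have m1 : Measurable fun p : ℂ × ℂ => gD R p.1 p.2 (ev p.1 p.2) :=
    measurable_gD R measurable_fst measurable_snd measurable_ev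
  have m3 : Measurable fun p : ℂ × ℂ => gD R (ev p.1 p.2) p.1 p.2 :=
    measurable_gD R measurable_ev measurable_fst measurable_snd
  have c2 : ∫⁻ x, ∫⁻ y, gD R y (ev x y) x = ∫⁻ x, ∫⁻ y, gD R x y (ev x y) :=
    cyc (fun x y z => gD R y z x) (measurable_gD R (by fun_prop) (by fun_prop) (by fun_prop))
  have c3 : ∫⁻ x, ∫⁻ y, gD R (ev x y) x y = ∫⁻ x, ∫⁻ y, gD R x y (ev x y) :=
    (cyc (fun x y z => gD R x y z) (measurable_gD R (by fun_prop) (by fun_prop) (by fun_prop))).symm
  have hpi := Real.pi_pos
  calc J (Metric.closedBall 0 R) ≤ ∫⁻ x, ∫⁻ y,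
        (gD R x y (ev x y) + gD R y (ev x y) x + gD R (ev x y) x y) :=
        lintegral_mono fun x => lintegral_mono fun y => hpt x y
    _ = ∫⁻ x, ((∫⁻ y, gD R x y (ev x y)) + (∫⁻ y, gD R y (ev x y) x) +
        ∫⁻ y, gD R (ev x y) x y) := by
        congr 1; ext x
        have n1 : Measurable fun y => gD R x y (ev x y) := m1.comp measurable_prodMk_left
        have n3 : Measurable fun y => gD R (ev x y) x y := m3.comp measurable_prodMk_left
        rw [lintegral_add_right _ n3, lintegral_add_left n1]
    _ = (∫⁻ x, ∫⁻ y, gD R x y (ev x y)) + (∫⁻ x, ∫⁻ y, gD R y (ev x y) x) +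
        ∫⁻ x, ∫⁻ y, gD R (ev x y) x y := by
        have n1 : Measurable fun x => ∫⁻ y, gD R x y (ev x y) := m1.lintegral_prod_right'
        have n3 : Measurable fun x => ∫⁻ y, gD R (ev x y) x y := m3.lintegral_prod_right'
        rw [lintegral_add_right _ n3, lintegral_add_left n1]
    _ ≤ 3 * (ENNReal.ofReal (π * R ^ 6 / 3) * ENNReal.ofReal (π - 9 * √3 / 8)) := by
        rw [c2, c3, show (3 : ENNReal) = 1 + 1 + 1 by norm_num, add_mul, add_mul, one_mul]
        gcongr <;> exact gD_int R hR
    _ = _ := by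
        rw [← mul_assoc, show (3 : ENNReal) = ENNReal.ofReal 3 by simp,
          ← ENNReal.ofReal_mul (by norm_num), ← ENNReal.ofReal_mul (by positivity)]
        congr 1; ring

end Pool.Agent.H236Z.Hall
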