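import Pool.Agent.H236Z.Hall.Tri
import Pool.Agent.H236Z.Hall.Defs

namespace Pool.Agent.H236Z.Hall

open MeasureTheory Complex Set Real EuclideanGeometry Filter Topology

noncomputable def W (S : Set ℂ) (x y : ℂ) : ENNReal := volume ({z | good x y z} ∩ S)

noncomputable def V (S : Set ℂ) : ENNReal := ∫⁻ x, ∫⁻ y, ind S x * ind S y * W S x y

def Tp : Set ℂ := T ∩ Metric.closedBall om (1 / 2000)
def Tm : Set ℂ := T ∩ Metric.closedBall (1 - om) (1 / 2000)

theorem meas_Tp : MeasurableSet Tp := meas_T.inter Metric.isClosed_closedBall.measurableSet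
theorem meas_Tm : MeasurableSet Tm := meas_T.inter Metric.isClosed_closedBall.measurableSet

theorem lint_ind {S : Set ℂ} (hS : MeasurableSet S) : ∫⁻ z, ind S z = volume S :=
  lintegral_indicator_one hS

theorem W_eq {S : Set ℂ} (hS : MeasurableSet S) {x y : ℂ} (hxy : x ≠ y) :
    W S x y = ENNReal.ofReal (normSq (y - x)) *
      ∫⁻ t, ind ({t | x + (y - x) * t ∈ S} ∩ T) t := by
  have hm : MeasurableSet ({z | good x y z} ∩ S) :=
    (meas_good measurable_const measurable_const measurable_id).inter hS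
  unfold W
  rw [← lint_ind hm, lint_affine x (y - x) (sub_ne_zero.2 hxy.symm)]
  congr 2; ext t
  by_cases h : t ∈ {t | x + (y - x) * t ∈ S} ∩ T
  · rw [ind_of_mem h, ind_of_mem]
    exact ⟨(good_affine hxy t).2 h.2, h.1⟩
  · rw [ind_of_notMem h, ind_of_notMem]
    exact fun h' => h ⟨h'.2, (good_affine hxy t).1 h'.1⟩

theorem W_self (S : Set ℂ) (x : ℂ) : W S x x = 0 := by
  unfold W
  have : {z | good x x z} = ∅ := by
    ext z; simp [not_good_self]
  rw [this, empty_inter, measure_empty]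

theorem near_p {x y t : ℂ} (hxy : ‖y - x‖ ≤ 2) (ht : t ∈ Tp) :
    ‖x + (y - x) * t - ev x y‖ ≤ 1 / 1000 := by
  have h := ht.2
  rw [Metric.mem_closedBall, dist_eq_norm] at h
  rw [show x + (y - x) * t - ev x y = (y - x) * (t - om) by unfold ev; ring, norm_mul]
  calc _ ≤ 2 * (1 / 2000) := mul_le_mul hxy h (norm_nonneg _) (by norm_num)
    _ = _ := by norm_num

theorem near_m {x y t : ℂ} (hxy : ‖y - x‖ ≤ 2) (ht : t ∈ Tm) :
    ‖x + (y - x) * t - ev y x‖ ≤ 1 / 1000 := by
  have h := ht.2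
  rw [Metric.mem_closedBall, dist_eq_norm] at h
  rw [show x + (y - x) * t - ev y x = (y - x) * (t - (1 - om)) by unfold ev; ring, norm_mul]
  calc _ ≤ 2 * (1 / 2000) := mul_le_mul hxy h (norm_nonneg _) (by norm_num)
    _ = _ := by norm_num

theorem lint_two (a b : ENNReal) :
    ∫⁻ t, (a * ind Tp t + b * ind Tm t) = a * volume Tp + b * volume Tm := by
  have h1 := measurable_ind meas_Tp
  have h2 := measurable_ind meas_Tm
  rw [lintegral_add_left (by fun_prop), lintegral_const_mul _ h1, lintegral_const_mul _ h2,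
    lint_ind meas_Tp, lint_ind meas_Tm]

theorem JJ_eq {S : Set ℂ} (hS : MeasurableSet S) (a b : ENNReal) :
    ∫⁻ x, ∫⁻ y, ind S x * ind S y * (ENNReal.ofReal (normSq (y - x)) *
      (ind S (ev x y) * a + ind S (ev y x) * b)) = J S * (a + b) := by
  have h := measurable_ind hS
  have h2 : Measurable fun u : ℂ => normSq u := continuous_normSq.measurable
  have m1 : Measurable fun p : ℂ × ℂ => ind S p.1 * ind S p.2 * ind S (ev p.1 p.2) *
      ENNReal.ofReal (normSq (p.2 - p.1)) := by unfold ev; fun_prop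
  have m2 : Measurable fun p : ℂ × ℂ => ind S p.2 * ind S p.1 * ind S (ev p.2 p.1) *
      ENNReal.ofReal (normSq (p.1 - p.2)) := by unfold ev; fun_prop
  have sw : ∫⁻ x, ∫⁻ y, ind S y * ind S x * ind S (ev y x) * ENNReal.ofReal (normSq (x - y)) =
      J S := by
    unfold J
    exact lintegral_lintegral_swap (f := fun x y => ind S y * ind S x * ind S (ev y x) *
      ENNReal.ofReal (normSq (x - y))) m2.aemeasurable
  have e : ∀ x, ∫⁻ y, ind S x * ind S y * (ENNReal.ofReal (normSq (y - x)) *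
      (ind S (ev x y) * a + ind S (ev y x) * b)) =
      (∫⁻ y, ind S x * ind S y * ind S (ev x y) * ENNReal.ofReal (normSq (y - x))) * a +
      (∫⁻ y, ind S y * ind S x * ind S (ev y x) * ENNReal.ofReal (normSq (x - y))) * b := by
    intro x
    have n1 : Measurable fun y => ind S x * ind S y * ind S (ev x y) *
      ENNReal.ofReal (normSq (y - x)) := m1.comp measurable_prodMk_left
    have n2 : Measurable fun y => ind S y * ind S x * ind S (ev y x) *
      ENNReal.ofReal (normSq (x - y)) := m2.comp measurable_prodMk_left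
    rw [← lintegral_mul_const _ n1, ← lintegral_mul_const _ n2,
      ← lintegral_add_left (n1.mul_const _)]
    congr 1; ext y
    rw [← normSq_neg (x - y), neg_sub]; ring
  have n1 : Measurable fun x => ∫⁻ y, ind S x * ind S y * ind S (ev x y) *
      ENNReal.ofReal (normSq (y - x)) := m1.lintegral_prod_right'
  have n2 : Measurable fun x => ∫⁻ y, ind S y * ind S x * ind S (ev y x) *
      ENNReal.ofReal (normSq (x - y)) := m2.lintegral_prod_right'
  simp_rw [e]
  rw [lintegral_add_left (n1.mul_const _), lintegral_mul_const _ n1, lintegral_mul_const _ n2, sw,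
    mul_add]
  rfl

theorem ind_le_one (S : Set ℂ) (x : ℂ) : ind S x ≤ 1 := by
  by_cases h : x ∈ S
  · rw [ind_of_mem h]
  · rw [ind_of_notMem h]; exact zero_le

theorem V_disk : V (Metric.closedBall 0 1) ≤
    J (Metric.closedBall 0 (1001 / 1000)) * (volume Tp + volume Tm) := by
  rw [← JJ_eq Metric.isClosed_closedBall.measurableSet]
  refine lintegral_mono fun x => lintegral_mono fun y => ?_
  by_cases hx : x ∈ Metric.closedBall (0 : ℂ) 1
  swap; · simp [ind_of_notMem hx]
  by_cases hy : y ∈ Metric.closedBall (0 : ℂ) 1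
  swap; · simp [ind_of_notMem hy]
  have hsub : Metric.closedBall (0 : ℂ) 1 ⊆ Metric.closedBall 0 (1001 / 1000) :=
    Metric.closedBall_subset_closedBall (by norm_num)
  rw [ind_of_mem hx, ind_of_mem hy, ind_of_mem (hsub hx), ind_of_mem (hsub hy)]
  by_cases hxy : x = y
  · subst hxy; rw [W_self]; simp
  rw [W_eq Metric.isClosed_closedBall.measurableSet hxy, ← lint_two]
  have hn : ‖y - x‖ ≤ 2 := by
    rw [Metric.mem_closedBall, dist_zero_right] at hx hy
    linarith [norm_sub_le y x]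
  gcongr with t
  by_cases ht : t ∈ {t | x + (y - x) * t ∈ Metric.closedBall (0 : ℂ) 1} ∩ T
  swap; · rw [ind_of_notMem ht]; exact zero_le
  have h1 : ‖x + (y - x) * t‖ ≤ 1 := by simpa using ht.1
  rw [ind_of_mem ht]
  rcases T_subset ht.2 with h | h
  · have h2 : t ∈ Tp := ⟨ht.2, h⟩
    have h3 : ev x y ∈ Metric.closedBall (0 : ℂ) (1001 / 1000) := by
      rw [Metric.mem_closedBall, dist_zero_right]
      have := norm_sub_norm_le (ev x y) (x + (y - x) * t)
      rw [norm_sub_rev] at this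
      linarith [near_p hn h2]
    rw [ind_of_mem h2, ind_of_mem h3, one_mul]; exact le_self_add
  · have h2 : t ∈ Tm := ⟨ht.2, h⟩
    have h3 : ev y x ∈ Metric.closedBall (0 : ℂ) (1001 / 1000) := by
      rw [Metric.mem_closedBall, dist_zero_right]
      have := norm_sub_norm_le (ev y x) (x + (y - x) * t)
      rw [norm_sub_rev] at this
      linarith [near_m hn h2]
    rw [ind_of_mem h2, ind_of_mem h3, one_mul]; exact le_add_self

/-- The slightly larger square. -/
def Q' : Set ℂ := box (-(501 / 1000)) (501 / 1000) (-(501 / 1000)) (501 / 1000)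

theorem mem_Q' {z w : ℂ} (hw : w ∈ Q) (h : ‖z - w‖ ≤ 1 / 1000) : z ∈ Q' := by
  obtain ⟨⟨h1, h2⟩, h3, h4⟩ := hw
  have a := abs_le.1 ((Complex.abs_re_le_norm (z - w)).trans h)
  have b := abs_le.1 ((Complex.abs_im_le_norm (z - w)).trans h)
  rw [sub_re] at a
  rw [sub_im] at b
  refine ⟨⟨?_, ?_⟩, ?_, ?_⟩ <;> linarith [a.1, a.2, b.1, b.2]

theorem Tp_Tm {t : ℂ} (h1 : t ∈ Tp) (h2 : t ∈ Tm) : False := by
  have a := h1.2
  have b := h2.2
  rw [Metric.mem_closedBall, dist_eq_norm] at a b
  have a' := abs_le.1 ((Complex.abs_im_le_norm _).trans a)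
  have b' := abs_le.1 ((Complex.abs_im_le_norm _).trans b)
  simp only [om, sub_im, one_im] at a' b'
  linarith [sqrt3_lo, a'.1, b'.2]

theorem V_square : J Q * (volume Tp + volume Tm) ≤ V Q' := by
  rw [← JJ_eq measurableSet_Q]
  refine lintegral_mono fun x => lintegral_mono fun y => ?_
  by_cases hx : x ∈ Q
  swap; · simp [ind_of_notMem hx]
  by_cases hy : y ∈ Q
  swap; · simp [ind_of_notMem hy]
  rw [ind_of_mem hx, ind_of_mem hy, ind_of_mem (mem_Q' hx (by simp)),
    ind_of_mem (mem_Q' hy (by simp))]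
  by_cases hxy : x = y
  · subst hxy; simp
  rw [W_eq (S := Q') (measurableSet_box _ _ _ _) hxy, ← lint_two]
  have hn : ‖y - x‖ ≤ 2 := by
    obtain ⟨⟨h1, h2⟩, h3, h4⟩ := hx
    obtain ⟨⟨h5, h6⟩, h7, h8⟩ := hy
    have a : |(y - x).re| ≤ 1 := by rw [sub_re, abs_le]; constructor <;> linarith
    have b : |(y - x).im| ≤ 1 := by rw [sub_im, abs_le]; constructor <;> linarith
    linarith [Complex.norm_le_abs_re_add_abs_im (y - x)]
  gcongr with t
  by_cases h1 : t ∈ Tp
  · rw [ind_of_notMem (Tp_Tm h1), mul_zero, add_zero, ind_of_mem h1, mul_one]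
    by_cases h2 : ev x y ∈ Q
    · rw [ind_of_mem h2, ind_of_mem]
      exact ⟨mem_Q' h2 (near_p hn h1), h1.1⟩
    · rw [ind_of_notMem h2]; exact zero_le
  · rw [ind_of_notMem h1, mul_zero, zero_add]
    by_cases h3 : t ∈ Tm
    swap; · rw [ind_of_notMem h3, mul_zero]; exact zero_le
    rw [ind_of_mem h3, mul_one]
    by_cases h2 : ev y x ∈ Q
    · rw [ind_of_mem h2, ind_of_mem]
      exact ⟨mem_Q' h2 (near_m hn h3), h3.1⟩
    · rw [ind_of_notMem h2]; exact zero_le

theorem t_ne_zero : volume Tp + volume Tm ≠ 0 := by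
  have : 0 < volume Tp :=
    Measure.measure_pos_of_mem_nhds _
      (inter_mem T_mem_nhds (Metric.closedBall_mem_nhds _ (by norm_num)))
  exact (lt_of_lt_of_le this le_self_add).ne'

theorem t_ne_top : volume Tp + volume Tm ≠ ⊤ :=
  ENNReal.add_ne_top.2
    ⟨((measure_mono inter_subset_right).trans_lt measure_closedBall_lt_top).ne,
      ((measure_mono inter_subset_right).trans_lt measure_closedBall_lt_top).ne⟩

/-- The comparison in the complex plane. -/
theorem compare : (volume (Metric.closedBall (0 : ℂ) 1))⁻¹ ^ 3 * V (Metric.closedBall 0 1) <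
    (volume Q')⁻¹ ^ 3 * V Q' := by
  have hpi := Real.pi_pos
  have v1 : volume (Metric.closedBall (0 : ℂ) 1) = ENNReal.ofReal π := by
    rw [Complex.volume_closedBall, ← NNReal.coe_real_pi, ENNReal.ofReal_coe_nnreal]; simp
  have v2 : volume Q' = ENNReal.ofReal ((501 / 500) ^ 2) := by
    unfold Q'
    rw [volume_box, ← ENNReal.ofReal_mul (by norm_num)]
    congr 1; norm_num
  have s1 := sqrt3_lo
  have s2 := sqrt3_hi
  have p1 := Real.pi_gt_d4
  have p2 := Real.pi_lt_d4
  have key : π⁻¹ ^ 3 * (π * (1001 / 1000) ^ 6 * (π - 9 * √3 / 8)) <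
      ((501 / 500 : ℝ) ^ 2)⁻¹ ^ 3 * ((40 * √3 - 47) / 180) := by
    have e : π⁻¹ ^ 3 * (π * (1001 / 1000) ^ 6 * (π - 9 * √3 / 8)) =
        ((1001 / 1000) ^ 6 * (π - 9 * √3 / 8)) / π ^ 2 := by field_simp
    have a1 : (3.1415 : ℝ) ^ 2 ≤ π ^ 2 := pow_le_pow_left₀ (by norm_num) p1.le 2
    have a2 : (1001 / 1000 : ℝ) ^ 6 * (π - 9 * √3 / 8) ≤
        (1001 / 1000) ^ 6 * (3.1416 - 9 * 1.73205 / 8) := by
      apply mul_le_mul_of_nonneg_left _ (by norm_num); linarith
    have a3 : ((501 / 500 : ℝ) ^ 2)⁻¹ ^ 3 * ((40 * 1.73205 - 47) / 180) ≤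
        ((501 / 500 : ℝ) ^ 2)⁻¹ ^ 3 * ((40 * √3 - 47) / 180) := by
      apply mul_le_mul_of_nonneg_left _ (by norm_num); linarith
    rw [e]
    calc _ ≤ (1001 / 1000) ^ 6 * (3.1416 - 9 * 1.73205 / 8) / (3.1415 : ℝ) ^ 2 :=
          div_le_div₀ (by norm_num) a2 (by norm_num) a1
      _ < _ := by norm_num
      _ ≤ _ := a3
  rw [v1, v2, ← ENNReal.ofReal_inv_of_pos hpi, ← ENNReal.ofReal_inv_of_pos (by norm_num),
    ← ENNReal.ofReal_pow (by positivity), ← ENNReal.ofReal_pow (by positivity)]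
  calc _ ≤ ENNReal.ofReal (π⁻¹ ^ 3) * (ENNReal.ofReal (π * (1001 / 1000) ^ 6 * (π - 9 * √3 / 8)) *
        (volume Tp + volume Tm)) := by
        gcongr
        refine V_disk.trans ?_
        gcongr
        exact J_disk _ (by norm_num)
    _ = ENNReal.ofReal (π⁻¹ ^ 3 * (π * (1001 / 1000) ^ 6 * (π - 9 * √3 / 8))) *
        (volume Tp + volume Tm) := by
        rw [ENNReal.ofReal_mul (p := π⁻¹ ^ 3) (by positivity), ← mul_assoc]
    _ < ENNReal.ofReal (((501 / 500 : ℝ) ^ 2)⁻¹ ^ 3 * ((40 * √3 - 47) / 180)) *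
        (volume Tp + volume Tm) := by
        refine ENNReal.mul_lt_mul_left t_ne_zero t_ne_top ?_
        refine (ENNReal.ofReal_lt_ofReal_iff ?_).2 key
        apply mul_pos (by positivity); linarith
    _ = ENNReal.ofReal (((501 / 500 : ℝ) ^ 2)⁻¹ ^ 3) * (ENNReal.ofReal ((40 * √3 - 47) / 180) *
        (volume Tp + volume Tm)) := by
        rw [ENNReal.ofReal_mul (p := ((501 / 500 : ℝ) ^ 2)⁻¹ ^ 3) (by positivity), mul_assoc]
    _ ≤ _ := by
        gcongr
        refine le_trans ?_ V_square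
        gcongr
        exact J_square

theorem prod_cond (S : Set ℂ) (hS : MeasurableSet S) (hne : volume S ≠ 0) :
    ((ProbabilityTheory.cond volume S).prod ((ProbabilityTheory.cond volume S).prod
      (ProbabilityTheory.cond volume S))) {t | good t.1 t.2.1 t.2.2} =
      (volume S)⁻¹ ^ 3 * V S := by
  have hc : (volume S)⁻¹ ≠ ⊤ := ENNReal.inv_ne_top.2 hne
  rw [Measure.prod_apply (meas_good (by fun_prop) (by fun_prop) (by fun_prop))]
  have e : ∀ x : ℂ, ((ProbabilityTheory.cond volume S).prod (ProbabilityTheory.cond volume S))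
      (Prod.mk x ⁻¹' {t : ℂ × ℂ × ℂ | good t.1 t.2.1 t.2.2}) =
      (volume S)⁻¹ * ((volume S)⁻¹ * ∫⁻ y, ind S y * W S x y) := by
    intro x
    have hm : MeasurableSet (Prod.mk x ⁻¹' {t : ℂ × ℂ × ℂ | good t.1 t.2.1 t.2.2}) :=
      meas_good (a := fun _ : ℂ × ℂ => x) measurable_const measurable_fst measurable_snd
    rw [Measure.prod_apply hm]
    have e2 : ∀ y : ℂ, (ProbabilityTheory.cond volume S) (Prod.mk y ⁻¹'
        (Prod.mk x ⁻¹' {t : ℂ × ℂ × ℂ | good t.1 t.2.1 t.2.2})) = (volume S)⁻¹ * W S x y := by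
      intro y
      rw [ProbabilityTheory.cond_apply hS, inter_comm]; rfl
    simp_rw [e2]
    rw [lintegral_const_mul' _ _ hc, ProbabilityTheory.cond, lintegral_smul_measure, smul_eq_mul,
      ← lintegral_indicator hS]
    congr 3; ext y
    by_cases hy : y ∈ S
    · rw [indicator_of_mem hy, ind_of_mem hy, one_mul]
    · rw [indicator_of_notMem hy, ind_of_notMem hy, zero_mul]
  simp_rw [e]
  rw [lintegral_const_mul' _ _ hc, lintegral_const_mul' _ _ hc, ProbabilityTheory.cond,
    lintegral_smul_measure, smul_eq_mul, ← lintegral_indicator hS, pow_three, mul_assoc, mul_assoc]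
  congr 3
  unfold V
  congr 1; ext x
  by_cases hx : x ∈ S
  · rw [indicator_of_mem hx, ind_of_mem hx]; simp only [one_mul]
  · rw [indicator_of_notMem hx, ind_of_notMem hx]; simp

/-- The identification of the complex plane with Euclidean two-space. -/
noncomputable def eqv : ℂ ≃ₗᵢ[ℝ] EuclideanSpace ℝ (Fin 2) := Complex.orthonormalBasisOneI.repr

theorem F_eq (S : Set (EuclideanSpace ℝ (Fin 2))) (hS : MeasurableSet S)
    (hne : volume (eqv ⁻¹' S) ≠ 0) :
    F S phi0 = (volume (eqv ⁻¹' S))⁻¹ ^ 3 * V (eqv ⁻¹' S) := by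
  have mp : MeasurePreserving eqv volume volume := eqv.measurePreserving
  have hv : volume (eqv ⁻¹' S) = volume S := mp.measure_preimage hS.nullMeasurableSet
  have mp2 : MeasurePreserving eqv (ProbabilityTheory.cond volume (eqv ⁻¹' S)) (unif S) := by
    unfold unif ProbabilityTheory.cond
    rw [hv]
    exact (mp.restrict_preimage hS).smul_measure _
  have mp3 := mp2.prod (mp2.prod mp2)
  have hm : MeasurableSet {t : EuclideanSpace ℝ (Fin 2) × EuclideanSpace ℝ (Fin 2) ×
      EuclideanSpace ℝ (Fin 2) | largestAngle t.1 t.2.1 t.2.2 ≤ phi0} := by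
    unfold largestAngle
    exact meas_le ((meas_angle (by fun_prop) (by fun_prop) (by fun_prop)).max
      ((meas_angle (by fun_prop) (by fun_prop) (by fun_prop)).max
        (meas_angle (by fun_prop) (by fun_prop) (by fun_prop)))) measurable_const
  unfold F
  rw [← mp3.measure_preimage hm.nullMeasurableSet, ← prod_cond _ (mp.measurable hS) hne]
  congr 1
  ext t
  have ha : ∀ a b c : ℂ, ∠ (eqv a) (eqv b) (eqv c) = ∠ a b c := fun a b c =>
    eqv.toLinearIsometry.toAffineIsometry.angle_map a b c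
  simp only [mem_preimage, mem_ofPred_eq, Prod.map_fst, Prod.map_snd, largestAngle, good, ha]

/-- The square in Euclidean two-space. -/
def sqE : Set (EuclideanSpace ℝ (Fin 2)) := eqv.symm ⁻¹' Q'

theorem preimage_sqE : eqv ⁻¹' sqE = Q' := by
  ext z; simp [sqE]

theorem convex_Q' : Convex ℝ Q' :=
  ((convex_Icc _ _).linear_preimage Complex.reLm).inter
    ((convex_Icc _ _).linear_preimage Complex.imLm)

theorem ball_subset_Q' : Metric.ball (0 : ℂ) (1 / 1000) ⊆ Q' := by
  intro z hz
  refine mem_Q' (w := 0) ?_ ?_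
  · refine ⟨⟨?_, ?_⟩, ?_, ?_⟩ <;> norm_num
  · rw [Metric.mem_ball, dist_eq_norm] at hz; exact hz.le

theorem main : ∃ n : ℕ, 2 ≤ n ∧ ∃ S : Set (EuclideanSpace ℝ (Fin n)),
    Convex ℝ S ∧ Bornology.IsBounded S ∧ (interior S).Nonempty ∧ IsClosed S ∧
      ∃ φ : ℝ, F (Metric.closedBall (0 : EuclideanSpace ℝ (Fin n)) 1) φ < F S φ := by
  have hcl : IsClosed Q' :=
    (isClosed_Icc.preimage Complex.continuous_re).inter
      (isClosed_Icc.preimage Complex.continuous_im)
  have hcl' : IsClosed sqE := hcl.preimage eqv.symm.continuous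
  refine ⟨2, le_rfl, sqE, convex_Q'.linear_preimage eqv.symm.toLinearEquiv.toLinearMap, ?_, ?_,
    hcl', phi0, ?_⟩
  · refine (Metric.isBounded_closedBall (x := 0) (r := 2)).subset fun p hp => ?_
    obtain ⟨⟨h1, h2⟩, h3, h4⟩ := hp
    rw [Metric.mem_closedBall, dist_zero_right, ← eqv.symm.norm_map]
    have a : |(eqv.symm p).re| ≤ 1 := by rw [abs_le]; constructor <;> linarith
    have b : |(eqv.symm p).im| ≤ 1 := by rw [abs_le]; constructor <;> linarith
    linarith [Complex.norm_le_abs_re_add_abs_im (eqv.symm p)]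
  · refine ⟨0, mem_interior.2 ⟨Metric.ball 0 (1 / 1000), fun p hp => ?_, Metric.isOpen_ball,
      Metric.mem_ball_self (by norm_num)⟩⟩
    apply ball_subset_Q'
    rw [Metric.mem_ball, dist_zero_right] at hp ⊢
    rwa [eqv.symm.norm_map]
  · have hb : eqv ⁻¹' Metric.closedBall (0 : EuclideanSpace ℝ (Fin 2)) 1 =
        Metric.closedBall (0 : ℂ) 1 := by
      ext z; simp
    rw [F_eq _ Metric.isClosed_closedBall.measurableSet
      (by rw [hb]; exact (Metric.measure_closedBall_pos _ _ one_pos).ne'),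
      F_eq _ hcl'.measurableSet (by
        rw [preimage_sqE]
        exact ((Metric.measure_ball_pos volume (0 : ℂ) (by norm_num)).trans_le
          (measure_mono ball_subset_Q')).ne'), hb, preimage_sqE]
    exact compare

end Pool.Agent.H236Z.Hall
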