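import Pool.Agent.H236Z.Hall.Disk

namespace Pool.Agent.H236Z.Hall

open MeasureTheory Complex Set Real

/-- An axis-parallel box. -/
def box (a b c d : ℝ) : Set ℂ := {z | z.re ∈ Icc a b ∧ z.im ∈ Icc c d}

theorem volume_box (a b c d : ℝ) :
    volume (box a b c d) = ENNReal.ofReal (b - a) * ENNReal.ofReal (d - c) := by
  have : box a b c d = measurableEquivRealProd ⁻¹' (Icc a b ×ˢ Icc c d) := by
    ext z; exact Iff.rfl
  rw [this, volume_preserving_equiv_real_prod.measure_preimage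
    (measurableSet_Icc.prod measurableSet_Icc).nullMeasurableSet, Measure.volume_eq_prod,
    Measure.prod_prod, Real.volume_Icc, Real.volume_Icc]

theorem measurableSet_box (a b c d : ℝ) : MeasurableSet (box a b c d) :=
  (Complex.measurable_re measurableSet_Icc).inter (Complex.measurable_im measurableSet_Icc)

/-- The centred unit square. -/
def Q : Set ℂ := box (-(1 / 2)) (1 / 2) (-(1 / 2)) (1 / 2)

theorem measurableSet_Q : MeasurableSet Q := measurableSet_box _ _ _ _

theorem ind_Q_I (z : ℂ) : ind Q (I * z) = ind Q z := by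
  have : I * z ∈ Q ↔ z ∈ Q := by
    simp only [Q, box, mem_ofPred_eq, mem_Icc, mul_re, mul_im, I_re, I_im]
    constructor <;> rintro ⟨⟨h1, h2⟩, h3, h4⟩ <;> refine ⟨⟨?_, ?_⟩, ?_, ?_⟩ <;> linarith
  by_cases h : z ∈ Q
  · rw [ind_of_mem h, ind_of_mem (this.2 h)]
  · rw [ind_of_notMem h, ind_of_notMem (fun h' => h (this.1 h'))]

/-- Area of the set of translates of the triangle `0, u, om * u` inside `Q`. -/
noncomputable def A (u : ℂ) : ENNReal := ∫⁻ x, ind Q x * ind Q (x + u) * ind Q (x + om * u)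

noncomputable def hq (u : ℂ) : ENNReal := ENNReal.ofReal (normSq u) * A u

theorem measurable_A : Measurable A := by
  have h := measurable_ind measurableSet_Q
  have : Measurable fun p : ℂ × ℂ => ind Q p.2 * ind Q (p.2 + p.1) * ind Q (p.2 + om * p.1) := by
    fun_prop
  exact this.lintegral_prod_right'

theorem measurable_hq : Measurable hq := by
  have h1 := measurable_A
  have h2 : Measurable fun u : ℂ => normSq u := continuous_normSq.measurable
  unfold hq
  fun_prop

theorem J_eq : J Q = ∫⁻ u, hq u := by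
  have h := measurable_ind measurableSet_Q
  have h2 : Measurable fun u : ℂ => normSq u := continuous_normSq.measurable
  unfold J
  have e1 : ∀ x : ℂ, ∫⁻ y, ind Q x * ind Q y * ind Q (ev x y) * ENNReal.ofReal (normSq (y - x)) =
      ∫⁻ u, ind Q x * ind Q (x + u) * ind Q (x + om * u) * ENNReal.ofReal (normSq u) := by
    intro x
    rw [← lintegral_add_left_eq_self _ x]
    congr 1; ext u
    simp [ev]
  simp_rw [e1]
  rw [lintegral_lintegral_swap]
  · congr 1; ext u
    unfold hq A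
    rw [lintegral_mul_const _ (by fun_prop), mul_comm]
  · apply Measurable.aemeasurable
    change Measurable fun p : ℂ × ℂ => ind Q p.1 * ind Q (p.1 + p.2) * ind Q (p.1 + om * p.2) *
      ENNReal.ofReal (normSq p.2)
    fun_prop

/-- Rotations preserving `hq`. -/
def Inv (c : ℂ) : Prop := normSq c = 1 ∧ ∀ u, hq (c * u) = hq u

theorem Inv.mul {c d : ℂ} (hc : Inv c) (hd : Inv d) : Inv (c * d) :=
  ⟨by rw [normSq_mul, hc.1, hd.1, one_mul], fun u => by rw [mul_assoc, hc.2, hd.2]⟩

theorem inv_I : Inv I := by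
  refine ⟨normSq_I, fun u => ?_⟩
  unfold hq A
  rw [normSq_mul, normSq_I, one_mul, lint_unit 0 I normSq_I]
  congr 2; ext x
  rw [zero_add, ← mul_add, show I * x + om * (I * u) = I * (x + om * u) by ring,
    ind_Q_I, ind_Q_I, ind_Q_I]

theorem inv_om2 : Inv (om * om) := by
  refine ⟨by rw [normSq_mul, normSq_om, one_mul], fun u => ?_⟩
  unfold hq A
  rw [normSq_mul, normSq_mul, normSq_om, one_mul, one_mul, ← lintegral_add_right_eq_self _ u]
  congr 2; ext x
  have h := om_sq
  have e1 : x + u + om * om * u = x + om * u := by linear_combination u * h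
  have e2 : x + u + om * (om * om * u) = x := by linear_combination (om + 1) * u * h
  rw [e1, e2]; ring

theorem inv_neg_one : Inv (-1) := by
  have := inv_I.mul inv_I
  rwa [I_mul_I] at this

theorem inv_om : Inv om := by
  have := inv_neg_one.mul (inv_om2.mul inv_om2)
  have h := om_sq
  have e : -1 * (om * om * (om * om)) = om := by
    linear_combination (-(om * om + om)) * h
  rwa [e] at this

theorem Inv.lint {c : ℂ} (hc : Inv c) (P : Set ℂ) :
    ∫⁻ u, ind P (c * u) * hq u = ∫⁻ u, ind P u * hq u := by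
  rw [lint_unit 0 c hc.1 (fun u => ind P u * hq u)]
  simp only [zero_add, hc.2]

def H1 : Set ℂ := {u | 0 < u.im}
def H2 : Set ℂ := {u | 0 < u.re ∧ 0 < u.im}
def H3 : Set ℂ := {u | 0 < u.im ∧ √3 * u.im < u.re}

theorem meas_H1 : MeasurableSet H1 := measurableSet_lt measurable_const Complex.measurable_im
theorem meas_H2 : MeasurableSet H2 :=
  (measurableSet_lt measurable_const Complex.measurable_re).inter
    (measurableSet_lt measurable_const Complex.measurable_im)
theorem meas_H3 : MeasurableSet H3 :=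
  (measurableSet_lt measurable_const Complex.measurable_im).inter
    (measurableSet_lt (Complex.measurable_im.const_mul _) Complex.measurable_re)

theorem ind_add_le {P U : Set ℂ} {x y z : ℂ} (h1 : x ∈ P → z ∈ U) (h2 : y ∈ P → z ∈ U)
    (h3 : x ∈ P → y ∈ P → False) : ind P x + ind P y ≤ ind U z := by
  by_cases hx : x ∈ P
  · rw [ind_of_mem hx, ind_of_notMem (h3 hx), ind_of_mem (h1 hx), add_zero]
  · by_cases hy : y ∈ P
    · rw [ind_of_mem hy, ind_of_notMem hx, ind_of_mem (h2 hy), zero_add]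
    · rw [ind_of_notMem hx, ind_of_notMem hy, add_zero]; exact zero_le

theorem step2 {P U : Set ℂ} (hP : MeasurableSet P) {c : ℂ} (hc : Inv c)
    (h : ∀ u, ind P u + ind P (c * u) ≤ ind U u) :
    2 * ∫⁻ u, ind P u * hq u ≤ ∫⁻ u, ind U u * hq u := by
  have h1 := measurable_ind hP
  have h2 := measurable_hq
  rw [two_mul]
  nth_rewrite 2 [← hc.lint P]
  rw [← lintegral_add_left (by fun_prop)]
  refine lintegral_mono fun u => ?_
  rw [← add_mul]
  gcongr
  exact h u

theorem step3 {P U : Set ℂ} (hP : MeasurableSet P) {c d : ℂ} (hc : Inv c) (hd : Inv d)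
    (h : ∀ u, ind P u + ind P (c * u) + ind P (d * u) ≤ ind U u) :
    3 * ∫⁻ u, ind P u * hq u ≤ ∫⁻ u, ind U u * hq u := by
  have h1 := measurable_ind hP
  have h2 := measurable_hq
  rw [show (3 : ENNReal) = 1 + 1 + 1 by norm_num, add_mul, add_mul, one_mul]
  nth_rewrite 3 [← hd.lint P]
  nth_rewrite 2 [← hc.lint P]
  rw [← lintegral_add_left (by fun_prop), ← lintegral_add_left (by fun_prop)]
  refine lintegral_mono fun u => ?_
  rw [← add_mul, ← add_mul]
  gcongr
  exact h u

theorem twelve : 12 * ∫⁻ u, ind H3 u * hq u ≤ ∫⁻ u, hq u := by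
  have h3 := sq3
  have hs : (0 : ℝ) < √3 := Real.sqrt_pos.2 (by norm_num)
  have s1 : 2 * ∫⁻ u, ind H1 u * hq u ≤ ∫⁻ u, ind univ u * hq u := by
    refine step2 meas_H1 inv_neg_one fun u => ind_add_le (fun _ => trivial) (fun _ => trivial) ?_
    simp only [H1, mem_ofPred_eq, neg_mul, one_mul, neg_im]
    intro a b; linarith
  have s2 : 2 * ∫⁻ u, ind H2 u * hq u ≤ ∫⁻ u, ind H1 u * hq u := by
    refine step2 meas_H2 (inv_neg_one.mul inv_I) fun u => ind_add_le ?_ ?_ ?_
    · exact fun h => h.2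
    · intro h; simpa [H2, H1] using h.1
    · intro h h'
      have h1 := h.1
      have h2 : u.re < 0 := by simpa [H2] using h'.2
      linarith
  have s3 : 3 * ∫⁻ u, ind H3 u * hq u ≤ ∫⁻ u, ind H2 u * hq u := by
    refine step3 meas_H3 (inv_neg_one.mul (inv_I.mul inv_om)) (inv_neg_one.mul inv_om2)
      fun u => ?_
    have e1 : (-1 * (I * om) * u).re = √3 / 2 * u.re + 1 / 2 * u.im := by simp [om]; ring
    have e2 : (-1 * (I * om) * u).im = √3 / 2 * u.im - 1 / 2 * u.re := by simp [om]; ring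
    have e3 : (-1 * (om * om) * u).re = 1 / 2 * u.re + √3 / 2 * u.im := by
      rw [om_sq]; simp [om]; norm_num
    have e4 : (-1 * (om * om) * u).im = 1 / 2 * u.im - √3 / 2 * u.re := by
      rw [om_sq]; simp [om]; ring
    have m1 : u ∈ H3 ↔ 0 < u.im ∧ √3 * u.im < u.re := Iff.rfl
    have m2 : -1 * (I * om) * u ∈ H3 ↔ u.re < √3 * u.im ∧ u.im < √3 * u.re := by
      change (0 < _ ∧ √3 * _ < _) ↔ _
      rw [e1, e2]
      have : √3 * (√3 / 2 * u.im - 1 / 2 * u.re) = 3 / 2 * u.im - √3 / 2 * u.re := by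
        linear_combination (u.im / 2) * h3
      rw [this]
      constructor <;> rintro ⟨a, b⟩ <;> constructor <;> linarith
    have m3 : -1 * (om * om) * u ∈ H3 ↔ √3 * u.re < u.im ∧ 0 < u.re := by
      change (0 < _ ∧ √3 * _ < _) ↔ _
      rw [e3, e4]
      have : √3 * (1 / 2 * u.im - √3 / 2 * u.re) = √3 / 2 * u.im - 3 / 2 * u.re := by
        linear_combination (-u.re / 2) * h3
      rw [this]
      constructor <;> rintro ⟨a, b⟩ <;> constructor <;> linarith
    have q1 : u ∈ H3 → u ∈ H2 := fun h => ⟨lt_trans (mul_pos hs h.1) h.2, h.1⟩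
    have q2 : -1 * (I * om) * u ∈ H3 → u ∈ H2 := by
      rw [m2]; rintro ⟨a, b⟩
      have c1 : √3 * u.im < √3 * (√3 * u.re) := mul_lt_mul_of_pos_left b hs
      have c2 : √3 * u.re < √3 * (√3 * u.im) := mul_lt_mul_of_pos_left a hs
      rw [← mul_assoc, h3] at c1 c2
      exact ⟨by linarith, by linarith⟩
    have q3 : -1 * (om * om) * u ∈ H3 → u ∈ H2 := by
      rw [m3]; rintro ⟨a, b⟩
      exact ⟨b, lt_trans (mul_pos hs b) a⟩
    by_cases a1 : u ∈ H3
    · have n2 : ¬ (-1 * (I * om) * u ∈ H3) := by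
        rw [m2]; rintro ⟨a, _⟩; exact lt_asymm a a1.2
      have n3 : ¬ (-1 * (om * om) * u ∈ H3) := by
        rw [m3]; rintro ⟨a, b⟩
        have c1 : √3 * (√3 * u.re) < √3 * u.im := mul_lt_mul_of_pos_left a hs
        rw [← mul_assoc, h3] at c1
        linarith [a1.2]
      rw [ind_of_mem a1, ind_of_notMem n2, ind_of_notMem n3, ind_of_mem (q1 a1)]; simp
    · rw [ind_of_notMem a1, zero_add]
      refine ind_add_le q2 q3 ?_
      rw [m2, m3]; rintro ⟨_, a⟩ ⟨b, _⟩; exact lt_asymm a b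
  have e : ∫⁻ u, ind univ u * hq u = ∫⁻ u, hq u := by
    congr 1; ext u; rw [ind_of_mem (mem_univ u), one_mul]
  calc 12 * ∫⁻ u, ind H3 u * hq u = 2 * (2 * (3 * ∫⁻ u, ind H3 u * hq u)) := by
        rw [← mul_assoc, ← mul_assoc]; norm_num
    _ ≤ 2 * (2 * ∫⁻ u, ind H2 u * hq u) := by gcongr
    _ ≤ 2 * ∫⁻ u, ind H1 u * hq u := by gcongr
    _ ≤ _ := s1.trans e.le

/-- The polynomial lower bound on the fundamental sector. -/
noncomputable def pl (a b : ℝ) : ℝ := (a ^ 2 + b ^ 2) * (1 - a) * (1 - √3 / 2 * a - b / 2)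

theorem hq_ge (a b : ℝ) (ha : a ≤ 1) (hb : 0 < b) (hab : √3 * b < a) :
    ENNReal.ofReal (pl a b) ≤ hq ⟨a, b⟩ := by
  have h3 := sq3
  have hs : (1 : ℝ) < √3 := by
    have := Real.sqrt_nonneg 3
    nlinarith
  have ha0 : 0 < a := by nlinarith
  have hA : ENNReal.ofReal (1 - a) * ENNReal.ofReal (1 - √3 / 2 * a - b / 2) ≤ A ⟨a, b⟩ := by
    have hv := volume_box (-(1 / 2)) (1 / 2 - a) (-(1 / 2)) (1 / 2 - (√3 / 2 * a + b / 2))
    rw [show 1 / 2 - a - -(1 / 2) = 1 - a by ring,
      show 1 / 2 - (√3 / 2 * a + b / 2) - -(1 / 2) = 1 - √3 / 2 * a - b / 2 by ring] at hv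
    rw [← hv, ← lintegral_indicator_one (measurableSet_box _ _ _ _)]
    refine lintegral_mono fun x => ?_
    by_cases hx : x ∈ box (-(1 / 2)) (1 / 2 - a) (-(1 / 2)) (1 / 2 - (√3 / 2 * a + b / 2))
    · obtain ⟨⟨h1, h2⟩, h4, h5⟩ := id hx
      have k1 : 0 < √3 * a := by positivity
      have k2 : 0 < √3 * b := by positivity
      have k3 : b < √3 * a := by nlinarith
      rw [indicator_of_mem hx, ind_of_mem, ind_of_mem, ind_of_mem]
      · simp
      · simp only [Q, box, om, mem_ofPred_eq, mem_Icc, add_re, add_im, mul_re, mul_im]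
        refine ⟨⟨?_, ?_⟩, ?_, ?_⟩ <;> linarith
      · simp only [Q, box, mem_ofPred_eq, mem_Icc, add_re, add_im]
        refine ⟨⟨?_, ?_⟩, ?_, ?_⟩ <;> linarith
      · simp only [Q, box, mem_ofPred_eq, mem_Icc]
        refine ⟨⟨?_, ?_⟩, ?_, ?_⟩ <;> linarith
    · rw [indicator_of_notMem hx]; exact zero_le
  unfold hq pl
  rw [mul_assoc, ENNReal.ofReal_mul (by positivity), ENNReal.ofReal_mul (by linarith), normSq_mk,
    show a * a + b * b = a ^ 2 + b ^ 2 by ring]
  gcongr

theorem int_pl (a : ℝ) : ∫ b in (0 : ℝ)..(√3 / 3 * a), pl a b =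
    (1 - a) * (10 * √3 / 27 * a ^ 3 - 47 / 72 * a ^ 4) := by
  have h3 := sq3
  have hd : ∀ b ∈ uIcc (0 : ℝ) (√3 / 3 * a), HasDerivAt (fun b : ℝ => (1 - a) *
      ((1 - √3 / 2 * a) * (a ^ 2 * b + b ^ 3 / 3) - (a ^ 2 * b ^ 2 / 4 + b ^ 4 / 8))) (pl a b) b := by
    intro b _
    have h1 := hasDerivAt_id' b
    have h := ((((h1.const_mul (a ^ 2)).add ((h1.pow 3).div_const 3)).const_mul
      (1 - √3 / 2 * a)).sub ((((h1.pow 2).const_mul (a ^ 2)).div_const 4).add
      ((h1.pow 4).div_const 8))).const_mul (1 - a)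
    refine h.congr_deriv ?_
    unfold pl
    norm_num
    ring
  rw [intervalIntegral.integral_eq_sub_of_hasDerivAt hd
    (Continuous.intervalIntegrable (by unfold pl; fun_prop) _ _)]
  have h4 : √3 ^ 2 = (3 : ℝ) := by rw [sq, h3]
  have h5 : √3 ^ 3 = 3 * √3 := by rw [pow_succ, h4]
  have h6 : √3 ^ 4 = (9 : ℝ) := by rw [show √3 ^ 4 = (√3 ^ 2) ^ 2 by ring, h4]; norm_num
  ring_nf
  rw [h4, h5, h6]
  ring

theorem int_pl2 : ∫ a in (0 : ℝ)..1, (1 - a) * (10 * √3 / 27 * a ^ 3 - 47 / 72 * a ^ 4) =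
    (40 * √3 - 47) / 2160 := by
  have hd : ∀ a ∈ uIcc (0 : ℝ) 1, HasDerivAt (fun a : ℝ =>
      10 * √3 / 27 * (a ^ 4 / 4 - a ^ 5 / 5) - 47 / 72 * (a ^ 5 / 5 - a ^ 6 / 6))
      ((1 - a) * (10 * √3 / 27 * a ^ 3 - 47 / 72 * a ^ 4)) a := by
    intro a _
    have h1 := hasDerivAt_id' a
    have h := ((((h1.pow 4).div_const 4).sub ((h1.pow 5).div_const 5)).const_mul
      (10 * √3 / 27)).sub ((((h1.pow 5).div_const 5).sub ((h1.pow 6).div_const 6)).const_mul
      (47 / 72))
    refine h.congr_deriv ?_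
    norm_num
    ring
  rw [intervalIntegral.integral_eq_sub_of_hasDerivAt hd
    (Continuous.intervalIntegrable (by fun_prop) _ _)]
  ring

theorem sector_ge : ENNReal.ofReal ((40 * √3 - 47) / 2160) ≤ ∫⁻ u, ind H3 u * hq u := by
  have h3 := sq3
  have hs : (0 : ℝ) < √3 := Real.sqrt_pos.2 (by norm_num)
  have h1 := measurable_ind meas_H3
  have h2 := measurable_hq
  rw [← (volume_preserving_equiv_real_prod.symm).lintegral_comp_emb
    measurableEquivRealProd.symm.measurableEmbedding, Measure.volume_eq_prod, lintegral_prod _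
    (Measurable.aemeasurable (by fun_prop))]
  rw [← int_pl2, intervalIntegral.integral_of_le zero_le_one]
  refine (ofReal_integral_le _ _
    ((Continuous.integrableOn_Icc (by fun_prop)).mono_set Ioc_subset_Icc_self)).trans ?_
  refine le_trans ?_ (setLIntegral_le_lintegral (Ioc 0 1) _)
  refine setLIntegral_mono' measurableSet_Ioc fun a ha => ?_
  have ha0 := ha.1
  rw [← int_pl a, intervalIntegral.integral_of_le (by positivity), integral_Ioc_eq_integral_Ioo]
  refine (ofReal_integral_le _ _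
    ((Continuous.integrableOn_Icc (by unfold pl; fun_prop)).mono_set Ioo_subset_Icc_self)).trans ?_
  refine le_trans ?_ (setLIntegral_le_lintegral (Ioo 0 (√3 / 3 * a)) _)
  refine setLIntegral_mono' measurableSet_Ioo fun b hb => ?_
  have hab : √3 * b < a := by
    have := mul_lt_mul_of_pos_left hb.2 hs
    have e : √3 * (√3 / 3 * a) = a := by linear_combination (a / 3) * h3
    rwa [e] at this
  rw [measurableEquivRealProd_symm_apply, ind_of_mem (show (⟨a, b⟩ : ℂ) ∈ H3 from ⟨hb.1, hab⟩),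
    one_mul]
  exact hq_ge a b ha.2 hb.1 hab

theorem J_square : ENNReal.ofReal ((40 * √3 - 47) / 180) ≤ J Q := by
  rw [J_eq]
  refine le_trans ?_ twelve
  calc ENNReal.ofReal ((40 * √3 - 47) / 180) = 12 * ENNReal.ofReal ((40 * √3 - 47) / 2160) := by
        rw [show (12 : ENNReal) = ENNReal.ofReal 12 by simp, ← ENNReal.ofReal_mul (by norm_num)]
        congr 1; ring
    _ ≤ _ := by gcongr; exact sector_ge

end Pool.Agent.H236Z.Hall
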