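import Pool.Agent.H236Z.Hall.Square

namespace Pool.Agent.H236Z.Hall

open MeasureTheory Complex Set Real EuclideanGeometry Filter Topology

/-- The angle bound used for the counterexample. -/
noncomputable def phi0 : ℝ := Real.arccos (49999 / 100000)

/-- All angles of the triangle are at most `phi0`. -/
def good (x y z : ℂ) : Prop := max (∠ y x z) (max (∠ x y z) (∠ x z y)) ≤ phi0

theorem meas_angle {α E : Type*} [MeasurableSpace α] [NormedAddCommGroup E]
    [InnerProductSpace ℝ E] [MeasurableSpace E] [BorelSpace E] [SecondCountableTopology E]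
    {a b c : α → E} (ha : Measurable a) (hb : Measurable b) (hc : Measurable c) :
    Measurable fun p => ∠ (a p) (b p) (c p) := by
  unfold EuclideanGeometry.angle InnerProductGeometry.angle
  refine Real.continuous_arccos.measurable.comp ?_
  simp only [vsub_eq_sub]
  have h1 : Measurable fun p => a p - b p := ha.sub hb
  have h2 : Measurable fun p => c p - b p := hc.sub hb
  exact (h1.inner h2).div (h1.norm.mul h2.norm)

theorem meas_good {α : Type*} [MeasurableSpace α] {a b c : α → ℂ} (ha : Measurable a)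
    (hb : Measurable b) (hc : Measurable c) : MeasurableSet {p | good (a p) (b p) (c p)} :=
  meas_le ((meas_angle hb ha hc).max ((meas_angle ha hb hc).max (meas_angle ha hc hb)))
    measurable_const

theorem phi0_lt : phi0 < π / 2 := by
  unfold phi0
  rw [Real.arccos_lt_pi_div_two]; norm_num

theorem not_good_self (x z : ℂ) : ¬ good x x z := by
  intro h
  have := (le_max_left _ _).trans h
  rw [angle_self_left] at this
  linarith [phi0_lt]

theorem good_affine {x y : ℂ} (hxy : x ≠ y) (t : ℂ) :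
    good x y (x + (y - x) * t) ↔ good 0 1 t := by
  have h : y - x ≠ 0 := sub_ne_zero.2 hxy.symm
  unfold good EuclideanGeometry.angle
  simp only [vsub_eq_sub]
  rw [← Complex.angle_mul_left h (1 - 0), ← Complex.angle_mul_left h (0 - 1),
    ← Complex.angle_mul_left h (0 - t)]
  rw [show (y - x) * (1 - 0) = y - x by ring,
    show (y - x) * (t - 0) = x + (y - x) * t - x by ring,
    show (y - x) * (0 - 1) = x - y by ring,
    show (y - x) * (t - 1) = x + (y - x) * t - y by ring,
    show (y - x) * (0 - t) = x - (x + (y - x) * t) by ring,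
    show (y - x) * (1 - t) = y - (x + (y - x) * t) by ring]

/-- Shapes of good triangles. -/
def T : Set ℂ := {t | good 0 1 t}

theorem meas_T : MeasurableSet T := meas_good measurable_const measurable_const measurable_id

theorem inner_ge_of_angle_le {a b : ℂ} (h : InnerProductGeometry.angle a b ≤ phi0) :
    49999 / 100000 * (‖a‖ * ‖b‖) ≤ a.re * b.re + a.im * b.im := by
  have h1 : Real.cos phi0 ≤ Real.cos (InnerProductGeometry.angle a b) :=
    Real.cos_le_cos_of_nonneg_of_le_pi (InnerProductGeometry.angle_nonneg _ _)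
      (Real.arccos_le_pi _) h
  have h2 : Real.cos phi0 = 49999 / 100000 := Real.cos_arccos (by norm_num) (by norm_num)
  have h3 := InnerProductGeometry.cos_angle_mul_norm_mul_norm a b
  rw [h2] at h1
  have h4 : inner ℝ a b = a.re * b.re + a.im * b.im := by
    rw [Complex.inner]; simp; ring
  rw [← h4, ← h3]
  exact mul_le_mul_of_nonneg_right h1 (by positivity)

theorem sq_lo {b lo : ℝ} (hb : 0 ≤ b) (h : lo ^ 2 ≤ b ^ 2) : lo ≤ b := by
  by_contra h'
  push Not at h'
  nlinarith

theorem shape_num {p q a b : ℝ} (hp : 0 < p) (hq : 0 < q) (ep : p ^ 2 = a ^ 2 + b ^ 2)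
    (eq' : q ^ 2 = (a - 1) ^ 2 + b ^ 2) (h1 : 49999 / 100000 * p ≤ a)
    (h2 : 49999 / 100000 * q ≤ 1 - a)
    (h3 : 49999 / 100000 * (p * q) ≤ -a * (1 - a) + b * b) :
    (0.4999 ≤ a ∧ a ≤ 0.5001) ∧ 0.8659 ^ 2 ≤ b ^ 2 ∧ b ^ 2 ≤ 0.8663 ^ 2 := by
  have k1 : 49999 / 100000 * (p + q) ≤ 1 := by linarith
  have k2 : 49999 / 100000 * (1 + q) ≤ p := by
    have : p * (49999 / 100000 * (1 + q)) ≤ p * p := by linarith
    exact le_of_mul_le_mul_left this hp
  have k3 : 49999 / 100000 * (1 + p) ≤ q := by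
    have : q * (49999 / 100000 * (1 + p)) ≤ q * q := by linarith
    exact le_of_mul_le_mul_left this hq
  have p1 : 0.99995 ≤ p := by linarith
  have q1 : 0.99995 ≤ q := by linarith
  have p2 : p ≤ 1.0001 := by linarith
  have a1 : 0.4999 ≤ a := by linarith
  have a2 : a ≤ 0.5001 := by linarith
  have pp1 : 0.99995 ^ 2 ≤ p ^ 2 := pow_le_pow_left₀ (by norm_num) p1 2
  have pp2 : p ^ 2 ≤ 1.0001 ^ 2 := pow_le_pow_left₀ hp.le p2 2
  have aa1 : 0.4999 ^ 2 ≤ a ^ 2 := pow_le_pow_left₀ (by norm_num) a1 2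
  have aa2 : a ^ 2 ≤ 0.5001 ^ 2 := pow_le_pow_left₀ (by linarith) a2 2
  refine ⟨⟨a1, a2⟩, ?_, ?_⟩
  · norm_num at pp1 aa2 ⊢; linarith
  · norm_num at pp2 aa1 ⊢; linarith

theorem sqrt3_lo : (1.73205 : ℝ) ≤ √3 := sq_lo (Real.sqrt_nonneg 3) (by rw [sq √3, sq3]; norm_num)
theorem sqrt3_hi : √3 ≤ (1.73206 : ℝ) := sq_lo (by norm_num) (by rw [sq √3, sq3]; norm_num)

theorem T_subset : T ⊆ Metric.closedBall om (1 / 2000) ∪ Metric.closedBall (1 - om) (1 / 2000) := by
  intro t ht'
  have ht : max (∠ 1 0 t) (max (∠ 0 1 t) (∠ 0 t 1)) ≤ phi0 := ht'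
  have ht0 : t ≠ 0 := by
    rintro rfl
    have := (le_max_left _ _).trans ht
    rw [angle_self_right] at this
    linarith [phi0_lt]
  have ht1 : t ≠ 1 := by
    rintro rfl
    have := (le_max_left _ _).trans ((le_max_right _ _).trans ht)
    rw [angle_self_right] at this
    linarith [phi0_lt]
  have h1 := inner_ge_of_angle_le ((le_max_left _ _).trans ht)
  have h2 := inner_ge_of_angle_le ((le_max_left _ _).trans ((le_max_right _ _).trans ht))
  have h3 := inner_ge_of_angle_le ((le_max_right _ _).trans ((le_max_right _ _).trans ht))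
  simp only [vsub_eq_sub, sub_zero, zero_sub, norm_neg, norm_one, one_mul, one_re, one_im,
    zero_mul, add_zero, neg_re, neg_im, sub_re, sub_im, neg_zero] at h1 h2 h3
  rw [norm_sub_rev 1 t] at h3
  have hp : 0 < ‖t‖ := norm_pos_iff.2 ht0
  have hq : 0 < ‖t - 1‖ := norm_pos_iff.2 (sub_ne_zero.2 ht1)
  have ep : ‖t‖ ^ 2 = t.re ^ 2 + t.im ^ 2 := by
    rw [← Complex.normSq_eq_norm_sq, normSq_apply]; ring
  have eq' : ‖t - 1‖ ^ 2 = (t.re - 1) ^ 2 + t.im ^ 2 := by
    rw [← Complex.normSq_eq_norm_sq, normSq_apply]; simp; ring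
  obtain ⟨⟨a1, a2⟩, b1, b2⟩ := shape_num hp hq ep eq' h1 (by linarith) (by linarith)
  have s1 := sqrt3_lo
  have s2 := sqrt3_hi
  have fin : ∀ w : ℂ, |w.re| ≤ 0.0001 → |w.im| ≤ 0.0003 → ‖w‖ ≤ 1 / 2000 := by
    intro w hw1 hw2
    have := Complex.norm_le_abs_re_add_abs_im w
    linarith
  clear h1 h2 h3 ep eq'
  rcases le_total 0 t.im with hb | hb
  · left
    have c1 : 0.8659 ≤ t.im := sq_lo hb b1
    have c2 : t.im ≤ 0.8663 := sq_lo (by norm_num) b2
    rw [Metric.mem_closedBall, dist_eq_norm]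
    apply fin
    · simp only [om, sub_re]; rw [abs_le]; constructor <;> linarith
    · simp only [om, sub_im]; rw [abs_le]; constructor <;> linarith
  · right
    have c1 : 0.8659 ≤ -t.im := sq_lo (by linarith) (by rw [neg_sq]; exact b1)
    have c2 : -t.im ≤ 0.8663 := sq_lo (by norm_num) (by rw [neg_sq]; exact b2)
    rw [Metric.mem_closedBall, dist_eq_norm]
    apply fin
    · simp only [om, sub_re, one_re]; rw [abs_le]; constructor <;> linarith
    · simp only [om, sub_im, one_im]; rw [abs_le]; constructor <;> linarith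

theorem angle_lt_phi0 {a b : ℂ} (ha : ‖a‖ = 1) (hb : ‖b‖ = 1)
    (h : a.re * b.re + a.im * b.im = 1 / 2) : InnerProductGeometry.angle a b < phi0 := by
  have h4 : inner ℝ a b = a.re * b.re + a.im * b.im := by
    rw [Complex.inner]; simp; ring
  unfold InnerProductGeometry.angle phi0
  rw [h4, h, ha, hb]
  exact Real.arccos_lt_arccos (by norm_num) (by norm_num) (by norm_num)

theorem T_mem_nhds : T ∈ 𝓝 om := by
  have h3 := sq3
  have n1 : ‖om - 1‖ = 1 := by rw [← om_sq, norm_mul, norm_om, one_mul]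
  have o0 : om ≠ 0 := by
    intro h; have := norm_om; rw [h] at this; simp at this
  have o1 : om ≠ 1 := by
    intro h; rw [h] at n1; simp at n1
  have c1 : ContinuousAt (fun t : ℂ => ∠ (1 : ℂ) 0 t) om :=
    (continuousAt_angle (x := ((1 : ℂ), (0 : ℂ), om)) one_ne_zero o0).comp
      (f := fun t : ℂ => ((1 : ℂ), (0 : ℂ), t)) (by fun_prop)
  have c2 : ContinuousAt (fun t : ℂ => ∠ (0 : ℂ) 1 t) om :=
    (continuousAt_angle (x := ((0 : ℂ), (1 : ℂ), om)) zero_ne_one o1).comp
      (f := fun t : ℂ => ((0 : ℂ), (1 : ℂ), t)) (by fun_prop)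
  have c3 : ContinuousAt (fun t : ℂ => ∠ (0 : ℂ) t 1) om :=
    (continuousAt_angle (x := ((0 : ℂ), om, (1 : ℂ))) o0.symm o1.symm).comp
      (f := fun t : ℂ => ((0 : ℂ), t, (1 : ℂ))) (by fun_prop)
  have l1 : ∠ (1 : ℂ) 0 om < phi0 := by
    apply angle_lt_phi0
    · simp
    · simp [norm_om]
    · simp [om]
  have l2 : ∠ (0 : ℂ) 1 om < phi0 := by
    apply angle_lt_phi0
    · simp
    · simpa using n1
    · simp [om]; norm_num
  have l3 : ∠ (0 : ℂ) om 1 < phi0 := by
    apply angle_lt_phi0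
    · simp [norm_om]
    · rw [vsub_eq_sub, norm_sub_rev]; exact n1
    · simp [om]; nlinarith
  filter_upwards [c1.eventually (gt_mem_nhds l1), c2.eventually (gt_mem_nhds l2),
    c3.eventually (gt_mem_nhds l3)] with t a b c
  exact max_le a.le (max_le b.le c.le)

end Pool.Agent.H236Z.Hall
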